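import Pool.Agent.Helper533.Polar.Abs

/-!
In `ℓ_p` and `L_p`, `1 < p < ∞`, every `μ`-compact closed bounded convex set is norm compact.
-/

set_option autoImplicit false

namespace Pool.Agent.Results.MP_5b7a98_an.MuCompactIsCompact

open MeasureTheory Filter Topology Set
open scoped ENNReal

/-- The set `A` is `μ`-compact: for every compact `K ⊆ A` the Borel probability measures on `A`
whose barycentre (Bochner integral) lies in `K` form a compact set, in the weak topology. -/
def MuCompact {E : Type*} [NormedAddCommGroup E] [NormedSpace ℝ E] [MeasurableSpace E]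
    [BorelSpace E] (A : Set E) : Prop :=
  ∀ K : Set E, K ⊆ A → IsCompact K →
    IsCompact {μ : ProbabilityMeasure A | ∫ x : A, (x : E) ∂(μ : Measure A) ∈ K}

/-- In the normed space `E` every `μ`-compact nonempty closed bounded convex set is compact. -/
def MuCompactSetsAreCompact (E : Type*) [NormedAddCommGroup E] [NormedSpace ℝ E] : Prop :=
  ∀ (_ : MeasurableSpace E) (_ : BorelSpace E) (A : Set E), A.Nonempty → IsClosed A →
    Convex ℝ A → Bornology.IsBounded A → MuCompact A → IsCompact A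

section general

variable {E : Type*} [NormedAddCommGroup E] [NormedSpace ℝ E]

/-- a closed set which is not compact contains a uniformly separated sequence -/
theorem exists_sep [CompleteSpace E] {A : Set E} (hA : IsClosed A) (h : ¬ IsCompact A) :
    ∃ (ε : ℝ) (x : ℕ → E), 0 < ε ∧ (∀ n, x n ∈ A) ∧ ∀ m n, m ≠ n → ε ≤ dist (x m) (x n) := by
  have h1 : ¬ TotallyBounded A := fun h2 =>
    h (isCompact_iff_totallyBounded_isComplete.2 ⟨h2, hA.isComplete⟩)
  rw [Metric.totallyBounded_iff] at h1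
  push Not at h1
  obtain ⟨ε, hε, h2⟩ := h1
  obtain ⟨x, hx1, hx2⟩ := exists_seq_of_forall_finset_exists (fun y : E => y ∈ A)
    (fun a b => ε ≤ dist b a) (fun s _ => by
      have h3 := h2 (s : Set E) s.finite_toSet
      rw [not_subset] at h3
      obtain ⟨y, hy, hy2⟩ := h3
      refine ⟨y, hy, fun a ha => ?_⟩
      by_contra h4
      push Not at h4
      exact hy2 (mem_biUnion (Finset.mem_coe.2 ha) h4))
  refine ⟨ε, x, hε, hx1, fun m n hmn => ?_⟩
  rcases lt_or_gt_of_ne hmn with h | h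
  · rw [dist_comm]; exact hx2 m n h
  · exact hx2 n m h

variable [MeasurableSpace E] [BorelSpace E]

/-- barycentres of measures on `A` concentrated on `F` -/
theorem exists_measure [CompleteSpace E] {A : Set E} {F : Set A} {y : E}
    (hy : y ∈ convexHull ℝ ((↑) '' F : Set E)) :
    ∃ μ : ProbabilityMeasure A, (μ : Measure A) Fᶜ = 0 ∧ ∫ x : A, (x : E) ∂(μ : Measure A) = y := by
  let S : Set E := {y | ∃ μ : Measure A, IsProbabilityMeasure μ ∧ μ Fᶜ = 0 ∧
    Integrable (fun x : A => (x : E)) μ ∧ ∫ x : A, (x : E) ∂μ = y}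
  have hS : Convex ℝ S := by
    rintro _ ⟨μ, h1, h2, h3, rfl⟩ _ ⟨ν, g1, g2, g3, rfl⟩ a b ha hb hab
    refine ⟨ENNReal.ofReal a • μ + ENNReal.ofReal b • ν, ⟨?_⟩, ?_, ?_, ?_⟩
    · simp only [Measure.coe_add, Measure.coe_smul, Pi.add_apply, Pi.smul_apply, measure_univ,
        smul_eq_mul, mul_one]
      rw [← ENNReal.ofReal_add ha hb, hab, ENNReal.ofReal_one]
    · simp only [Measure.coe_add, Measure.coe_smul, Pi.add_apply, Pi.smul_apply, h2, g2,
        smul_eq_mul, mul_zero, add_zero]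
    · exact (h3.smul_measure ENNReal.ofReal_ne_top).add_measure
        (g3.smul_measure ENNReal.ofReal_ne_top)
    · rw [integral_add_measure (h3.smul_measure ENNReal.ofReal_ne_top)
        (g3.smul_measure ENNReal.ofReal_ne_top), integral_smul_measure, integral_smul_measure,
        ENNReal.toReal_ofReal ha, ENNReal.toReal_ofReal hb]
  have hsub : ((↑) '' F : Set E) ⊆ S := by
    rintro _ ⟨x, hx, rfl⟩
    have hi : Integrable (fun x : A => (x : E)) (Measure.dirac x) := by
      refine ⟨?_, ?_⟩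
      · exact ⟨fun _ => (x : E), stronglyMeasurable_const, by
          rw [Filter.EventuallyEq, ae_dirac_eq]; rfl⟩
      · rw [hasFiniteIntegral_iff_enorm, lintegral_dirac]
        exact enorm_lt_top
    refine ⟨Measure.dirac x, inferInstance, ?_, hi, ?_⟩
    · rw [Measure.dirac_apply, indicator_of_notMem]
      exact fun h => h hx
    · exact integral_dirac _ _
  obtain ⟨μ, h1, h2, h3, h4⟩ := convexHull_min hsub hS hy
  exact ⟨⟨μ, h1⟩, h2, h4⟩

theorem isCompact_of_muCompact [CompleteSpace E]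
    (hinter : ∀ C : ℕ → Set E, (∀ n, IsClosed (C n)) → (∀ n, Convex ℝ (C n)) → Antitone C →
      (∀ n, (C n).Nonempty) → Bornology.IsBounded (C 0) → (⋂ n, C n).Nonempty)
    {A : Set E} (hA : IsClosed A) (hAc : Convex ℝ A) (hAb : Bornology.IsBounded A)
    (hμ : MuCompact A) : IsCompact A := by
  by_contra hcomp
  obtain ⟨ε, x, hε, hxA, hsep⟩ := exists_sep hA hcomp
  have hinj : Function.Injective x := by
    intro m n h
    by_contra hmn
    have := hsep m n hmn
    rw [h, dist_self] at this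
    linarith
  -- tails
  let F : ℕ → Set A := fun n => {a | ∃ k, n ≤ k ∧ (a : E) = x k}
  have hFimg : ∀ n, ((↑) '' F n : Set E) = x '' Ici n := by
    intro n
    ext y
    constructor
    · rintro ⟨a, ⟨k, hk, ha⟩, rfl⟩
      exact ⟨k, hk, ha.symm⟩
    · rintro ⟨k, hk, rfl⟩
      exact ⟨⟨x k, hxA k⟩, ⟨k, hk, rfl⟩, rfl⟩
  have hFcl : ∀ n, IsClosed (F n) := by
    intro n
    refine Metric.isClosed_of_pairwise_le_dist hε ?_
    rintro a ⟨k, -, ha⟩ b ⟨l, -, hb⟩ hab
    rw [Subtype.dist_eq, ha, hb]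
    refine hsep k l (fun h => hab (Subtype.ext ?_))
    rw [ha, hb, h]
  have hFanti : Antitone F := by
    rintro m n hmn a ⟨k, hk, ha⟩
    exact ⟨k, hmn.trans hk, ha⟩
  have hCA : ∀ n, convexHull ℝ (x '' Ici n) ⊆ A := by
    intro n
    refine convexHull_min ?_ hAc
    rintro _ ⟨k, -, rfl⟩
    exact hxA k
  obtain ⟨z, hz⟩ := hinter (fun n => closure (convexHull ℝ (x '' Ici n)))
    (fun n => isClosed_closure) (fun n => (convex_convexHull ℝ _).closure)
    (fun m n hmn => closure_mono (convexHull_mono (image_mono (Ici_subset_Ici.2 hmn))))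
    (fun n => ⟨x n, subset_closure (subset_convexHull ℝ _ ⟨n, self_mem_Ici, rfl⟩)⟩)
    ((hAb.subset (hCA 0)).closure)
  rw [mem_iInter] at hz
  have hy : ∀ n : ℕ, ∃ y ∈ convexHull ℝ (x '' Ici n), dist z y < 1 / ((n : ℝ) + 1) := fun n =>
    Metric.mem_closure_iff.1 (hz n) _ (by positivity)
  choose y hy1 hy2 using hy
  have hyz : Tendsto y atTop (𝓝 z) := by
    rw [tendsto_iff_dist_tendsto_zero]
    refine squeeze_zero (fun _ => dist_nonneg) (fun n => ?_) tendsto_one_div_add_atTop_nhds_zero_nat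
    rw [dist_comm]
    exact (hy2 n).le
  have hzA : z ∈ A := hA.mem_of_tendsto hyz (Eventually.of_forall fun n => hCA n (hy1 n))
  have hK := hμ (insert z (range y)) (by
    rintro _ (rfl | ⟨n, rfl⟩)
    · exact hzA
    · exact hCA n (hy1 n)) hyz.isCompact_insert_range
  have hm : ∀ n, ∃ μ : ProbabilityMeasure A, (μ : Measure A) (F n)ᶜ = 0 ∧
      ∫ a : A, (a : E) ∂(μ : Measure A) = y n := fun n =>
    exists_measure (by rw [hFimg]; exact hy1 n)
  choose μ hμ1 hμ2 using hm
  obtain ⟨ν, -, hν⟩ := hK.ultrafilter_le_nhds ((hyperfilter ℕ).map μ) (by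
    rw [le_principal_iff]
    refine Ultrafilter.mem_coe.2 (Ultrafilter.mem_map.2 ?_)
    refine univ_mem' fun n => ?_
    show ∫ a : A, (a : E) ∂(μ n : Measure A) ∈ insert z (range y)
    rw [hμ2]
    exact mem_insert_of_mem _ (mem_range_self n))
  have hlim : Tendsto μ (hyperfilter ℕ : Filter ℕ) (𝓝 ν) := hν
  have hone : ∀ m, (ν : Measure A) (F m) = 1 := by
    intro m
    refine le_antisymm prob_le_one ?_
    refine le_trans ?_ (ProbabilityMeasure.limsup_measure_closed_le_of_tendsto hlim (hFcl m))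
    have hev : ∀ᶠ n in (hyperfilter ℕ : Filter ℕ), (μ n : Measure A) (F m) = 1 := by
      have h1 : ∀ᶠ n in atTop, (μ n : Measure A) (F m) = 1 := by
        filter_upwards [eventually_ge_atTop m] with n hn
        have h2 : (μ n : Measure A) (F m)ᶜ = 0 :=
          measure_mono_null (compl_subset_compl.2 (hFanti hn)) (hμ1 n)
        exact (prob_compl_eq_zero_iff (hFcl m).measurableSet).1 h2
      rw [← Nat.cofinite_eq_atTop] at h1
      exact hyperfilter_le_cofinite h1
    rw [limsup_congr hev, limsup_const]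
  have hempty : ⋂ m, F m = ∅ := by
    rw [eq_empty_iff_forall_notMem]
    intro a ha
    rw [mem_iInter] at ha
    obtain ⟨k, -, hk⟩ := ha 0
    obtain ⟨l, hl, hl2⟩ := ha (k + 1)
    have : k = l := hinj (hk.symm.trans hl2)
    omega
  have ht := tendsto_measure_iInter_atTop (μ := (ν : Measure A))
    (fun m => (hFcl m).measurableSet.nullMeasurableSet) hFanti ⟨0, measure_ne_top _ _⟩
  rw [hempty, measure_empty] at ht
  simp only [Function.comp_def, hone] at ht
  exact one_ne_zero (tendsto_nhds_unique tendsto_const_nhds ht)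

end general


/-- nested intersections from a uniform convexity inequality -/
theorem nested {X : Type*} [NormedAddCommGroup X] [NormedSpace ℝ X] [CompleteSpace X]
    {p : ℝ} (hp : 1 < p)
    (hUC : ∀ η : ℝ, 0 < η → ∃ C : ℝ, 0 ≤ C ∧ ∀ a b : X, ‖a - b‖ ^ p ≤ η * (‖a‖ ^ p + ‖b‖ ^ p)
      + C * ((‖a‖ ^ p + ‖b‖ ^ p) / 2 - ‖(2⁻¹ : ℝ) • (a + b)‖ ^ p))
    (C : ℕ → Set X) (hcl : ∀ n, IsClosed (C n)) (hcv : ∀ n, Convex ℝ (C n)) (ha : Antitone C)
    (hne : ∀ n, (C n).Nonempty) (hb : Bornology.IsBounded (C 0)) : (⋂ n, C n).Nonempty :=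
  Pool.Agent.Helper533.Polar.inter_of_clarkson hp hUC C hcl hcv
    (fun i j => ⟨max i j, subset_inter (ha (le_max_left i j)) (ha (le_max_right i j))⟩) hne ⟨0, hb⟩

/-- the inequality in `ℓ_p` -/
theorem clarkson_lp {p : ℝ≥0∞} [Fact (1 ≤ p)] (hp1 : 1 < p) (hp : p ≠ ∞) {η : ℝ} (hη : 0 < η) :
    ∃ C : ℝ, 0 ≤ C ∧ ∀ a b : lp (fun _ : ℕ => ℝ) p,
      ‖a - b‖ ^ p.toReal ≤ η * (‖a‖ ^ p.toReal + ‖b‖ ^ p.toReal)
      + C * ((‖a‖ ^ p.toReal + ‖b‖ ^ p.toReal) / 2 - ‖(2⁻¹ : ℝ) • (a + b)‖ ^ p.toReal) := by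
  have hp1' : 1 < p.toReal := by
    rw [← ENNReal.toReal_one]
    exact (ENNReal.toReal_lt_toReal ENNReal.one_ne_top hp).2 hp1
  have hp0 : 0 < p.toReal := by linarith
  obtain ⟨C, hC, h⟩ := Pool.Agent.Helper533.Polar.clarkson_pointwise (F := ℝ) hp1' hη
  refine ⟨C, hC, fun a b => ?_⟩
  have hs : ∀ f : lp (fun _ : ℕ => ℝ) p, Summable fun i => ‖f i‖ ^ p.toReal := fun f =>
    (lp.memℓp f).summable hp0
  simp only [lp.norm_rpow_eq_tsum hp0]
  have ia := hs a
  have ib := hs b
  have iab := hs (a - b)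
  have im := hs ((2⁻¹ : ℝ) • (a + b))
  rw [← ia.tsum_add ib, ← tsum_mul_left, ← tsum_div_const,
    ← ((ia.add ib).div_const 2).tsum_sub im, ← tsum_mul_left,
    ← ((ia.add ib).mul_left η).tsum_add ((((ia.add ib).div_const 2).sub im).mul_left C)]
  refine iab.tsum_le_tsum (fun i => ?_)
    (((ia.add ib).mul_left η).add ((((ia.add ib).div_const 2).sub im).mul_left C))
  exact h (a i) (b i)

/-- **Theorem.** Let `1 < p < ∞`. Every `μ`-compact nonempty closed bounded convex subset of `ℓ_p`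
and of `L_p = L_p[0,1]` is norm compact. -/
theorem result (p : ℝ≥0∞) [Fact (1 ≤ p)] (hp1 : 1 < p) (hp : p ≠ ∞) :
    MuCompactSetsAreCompact (lp (fun _ : ℕ => ℝ) p) ∧
    MuCompactSetsAreCompact (Lp ℝ p (volume.restrict (Icc (0 : ℝ) 1))) := by
  have hp1' : 1 < p.toReal := by
    rw [← ENNReal.toReal_one]
    exact (ENNReal.toReal_lt_toReal ENNReal.one_ne_top hp).2 hp1
  constructor
  · intro _ _ A _ h1 h2 h3 h4
    exact isCompact_of_muCompact (nested hp1' fun η hη => clarkson_lp hp1 hp hη) h1 h2 h3 h4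
  · intro _ _ A _ h1 h2 h3 h4
    refine isCompact_of_muCompact (nested hp1' fun η hη => ?_) h1 h2 h3 h4
    obtain ⟨q, hq⟩ : ∃ q : ℝ, p = ENNReal.ofReal q := ⟨p.toReal, (ENNReal.ofReal_toReal hp).symm⟩
    subst hq
    have hq0 : 0 ≤ q := by
      by_contra h
      rw [ENNReal.ofReal_of_nonpos (by linarith)] at hp1
      exact absurd hp1 (by simp)
    rw [ENNReal.toReal_ofReal hq0] at hp1' ⊢
    exact Pool.Agent.Helper533.Polar.clarkson_Lp hp1' hη

end Pool.Agent.Results.MP_5b7a98_an.MuCompactIsCompact
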